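import Pool.Agent.DQ2.Stmts

/-!
# Squad DQ2: row PRD (replace the points one after the other)
-/

set_option autoImplicit false

open MvPolynomial

namespace Pool.Agent.DQ2.H50

theorem prd : PRD := by
  classical
  intro E M _ m N Z Ψ hΨ G y hy hG
  have key : ∀ S : Finset (Fin m), ∃ v : Fin m → M → E,
      eval (fun q : Fin m × Fin N =>
        if q.1 ∈ S then Ψ q.1 (v q.1) q.2 else y q.1 q.2) G ≠ 0 := by
    intro S
    induction S using Finset.induction_on with
    | empty =>
      refine ⟨fun _ _ => 0, ?_⟩
      simpa using hG
    | insert a S ha ih =>
      obtain ⟨v, hv⟩ := ih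
      set P : Fin m × Fin N → E := fun q =>
        if q.1 ∈ S then Ψ q.1 (v q.1) q.2 else y q.1 q.2 with hP
      set g : MvPolynomial (Fin N) E :=
        aeval (fun q : Fin m × Fin N => if q.1 = a then (X q.2 : MvPolynomial (Fin N) E)
          else C (P q)) G with hg
      have hev : ∀ z : Fin N → E,
          eval z g = eval (fun q : Fin m × Fin N => if q.1 = a then z q.2 else P q) G := by
        intro z
        have h1 : ((aeval z : MvPolynomial (Fin N) E →ₐ[E] E).comp
            (aeval (fun q : Fin m × Fin N => if q.1 = a then (X q.2 : MvPolynomial (Fin N) E)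
              else C (P q)) : MvPolynomial (Fin m × Fin N) E →ₐ[E] MvPolynomial (Fin N) E))
            = (aeval (fun q : Fin m × Fin N => if q.1 = a then z q.2 else P q) :
              MvPolynomial (Fin m × Fin N) E →ₐ[E] E) := by
          apply MvPolynomial.algHom_ext
          intro q
          by_cases hq : q.1 = a
          · simp [hq]
          · simp [hq]
        have h2 := DFunLike.congr_fun h1 G
        rw [AlgHom.comp_apply] at h2
        rw [hg]
        rw [← MvPolynomial.coe_aeval_eq_eval, ← MvPolynomial.coe_aeval_eq_eval]
        exact h2
      have hya : eval (y a) g ≠ 0 := by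
        rw [hev]
        have : (fun q : Fin m × Fin N => if q.1 = a then y a q.2 else P q) = P := by
          funext q
          by_cases hq : q.1 = a
          · rw [if_pos hq, hP]
            simp only
            rw [if_neg (by rw [hq]; exact ha), hq]
          · rw [if_neg hq]
        rw [this]
        exact hv
      obtain ⟨v', hv'⟩ := hΨ a g (y a) (hy a) hya
      refine ⟨Function.update v a v', ?_⟩
      rw [hev] at hv'
      have : (fun q : Fin m × Fin N => if q.1 = a then Ψ a v' q.2 else P q)
          = (fun q : Fin m × Fin N =>
            if q.1 ∈ insert a S then Ψ q.1 (Function.update v a v' q.1) q.2 else y q.1 q.2) := by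
        funext q
        obtain ⟨q1, q2⟩ := q
        by_cases hq : q1 = a
        · subst hq
          simp
        · simp [hP, hq, Function.update_of_ne hq]
      rw [← this]
      exact hv'
  obtain ⟨v, hv⟩ := key Finset.univ
  refine ⟨v, ?_⟩
  simpa using hv

end Pool.Agent.DQ2.H50
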